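import Mathlib

/-!
# Row DUAL of Theorem F (all primes), part 1: self-injectivity of `ZMod n` and lifting of orthogonal vectors
-/

set_option autoImplicit false

open Module

namespace Pool.Agent.Helper22.DU

/-- `ZMod n` satisfies Baer's criterion over itself -/
theorem baer_zmod {n : ℕ} [NeZero n] : Module.Baer (ZMod n) (ZMod n) := by
  intro I g
  set J : Ideal ℤ := I.comap (Int.castRingHom (ZMod n)) with hJ
  set d : ℤ := Submodule.IsPrincipal.generator J with hd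
  have hJd : ∀ z : ℤ, z ∈ J ↔ d ∣ z := fun z => by
    rw [hd]
    exact (Submodule.IsPrincipal.mem_iff_generator_dvd J)
  have hnJ : (n : ℤ) ∈ J := by
    rw [hJ, Ideal.mem_comap]
    simp
  obtain ⟨m, hm⟩ := (hJd _).1 hnJ
  have hm0 : m ≠ 0 := by
    rintro rfl
    rw [mul_zero] at hm
    exact (NeZero.ne n) (by exact_mod_cast hm)
  have hdI : ((d : ℤ) : ZMod n) ∈ I := by
    have h1 : d ∈ J := (hJd d).2 dvd_rfl
    rw [hJ, Ideal.mem_comap] at h1
    simpa using h1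
  obtain ⟨c, hc⟩ := ZMod.intCast_surjective (g ⟨_, hdI⟩)
  have h1 : ((m * c : ℤ) : ZMod n) = 0 := by
    have h2 : ((m : ℤ) : ZMod n) • (⟨((d : ℤ) : ZMod n), hdI⟩ : I) = 0 := by
      apply Subtype.ext
      show ((m : ℤ) : ZMod n) * ((d : ℤ) : ZMod n) = 0
      rw [← Int.cast_mul, mul_comm, ← hm]
      simp
    have h3 := congrArg g h2
    rw [map_smul, map_zero, ← hc, smul_eq_mul, ← Int.cast_mul] at h3
    exact h3
  have h2 : (n : ℤ) ∣ m * c := (ZMod.intCast_zmod_eq_zero_iff_dvd _ _).1 h1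
  have h3 : d ∣ c := by
    rw [hm, mul_comm d m] at h2
    exact (mul_dvd_mul_iff_left hm0).1 h2
  obtain ⟨t, ht⟩ := h3
  refine ⟨LinearMap.mulLeft (ZMod n) ((t : ℤ) : ZMod n), fun x hx => ?_⟩
  obtain ⟨z, rfl⟩ := ZMod.intCast_surjective x
  have h4 : z ∈ J := by
    rw [hJ, Ideal.mem_comap]
    simpa using hx
  obtain ⟨u, hu⟩ := (hJd z).1 h4
  have h5 : (⟨((z : ℤ) : ZMod n), hx⟩ : I) = ((u : ℤ) : ZMod n) • (⟨((d : ℤ) : ZMod n), hdI⟩ : I) := by
    apply Subtype.ext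
    show ((z : ℤ) : ZMod n) = ((u : ℤ) : ZMod n) * ((d : ℤ) : ZMod n)
    rw [← Int.cast_mul, hu, mul_comm]
  rw [h5, map_smul, ← hc, smul_eq_mul, LinearMap.mulLeft_apply, ← Int.cast_mul, ← Int.cast_mul, hu, ht]
  congr 1
  ring

/-- A vector orthogonal to the socle of `V` mod `p` lifts to a vector orthogonal to `V`. -/
theorem lift_perp {p e r : ℕ} [hp : Fact p.Prime] (he : 1 ≤ e) (V : AddSubgroup (Fin r → ZMod (p ^ e)))
    (ζ : Fin r → ℤ)
    (hζ : ∀ x : Fin r → ℤ, (fun i => (((p : ℤ) ^ (e - 1) * x i : ℤ) : ZMod (p ^ e))) ∈ V →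
      (p : ℤ) ∣ ∑ i, ζ i * x i) :
    ∃ ζ' : Fin r → ZMod (p ^ e), (∀ v ∈ V, ∑ i, ζ' i * v i = 0) ∧
      ∀ i, ∃ t : ZMod (p ^ e), ζ' i = ((ζ i : ℤ) : ZMod (p ^ e)) + p * t := by
  have hn : NeZero (p ^ e) := ⟨pow_ne_zero _ hp.out.ne_zero⟩
  set V' : Submodule (ZMod (p ^ e)) (Fin r → ZMod (p ^ e)) := AddSubgroup.toZModSubmodule (p ^ e) V with hV'
  have hmem : ∀ v, v ∈ V' ↔ v ∈ V := fun v => AddSubgroup.mem_toZModSubmodule (p ^ e)
  set f : V' →ₗ[ZMod (p ^ e)] (Fin r → ZMod (p ^ e)) := (p : ZMod (p ^ e)) • V'.subtype with hf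
  set φ : V' →ₗ[ZMod (p ^ e)] ZMod (p ^ e) :=
    (∑ i, ((ζ i : ℤ) : ZMod (p ^ e)) • LinearMap.proj (R := ZMod (p ^ e)) (φ := fun _ : Fin r => ZMod (p ^ e)) i) ∘ₗ V'.subtype
    with hφ
  have hφa : ∀ v : V', φ v = ∑ i, ((ζ i : ℤ) : ZMod (p ^ e)) * (v : Fin r → ZMod (p ^ e)) i := by
    intro v
    rw [hφ, LinearMap.comp_apply, LinearMap.sum_apply]
    rfl
  have hker : LinearMap.ker f ≤ LinearMap.ker φ := by
    intro v hv
    rw [LinearMap.mem_ker] at hv ⊢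
    have h1 : ∀ i, (p : ZMod (p ^ e)) * (v : Fin r → ZMod (p ^ e)) i = 0 := fun i => congrFun hv i
    have h2 : ∀ i, ∃ x : ℤ, (v : Fin r → ZMod (p ^ e)) i = (((p : ℤ) ^ (e - 1) * x : ℤ) : ZMod (p ^ e)) := by
      intro i
      obtain ⟨z, hz⟩ := ZMod.intCast_surjective ((v : Fin r → ZMod (p ^ e)) i)
      have h3 := h1 i
      rw [← hz] at h3
      have h4 : (((p : ℤ) * z : ℤ) : ZMod (p ^ e)) = 0 := by push_cast; exact h3
      have h5 := (ZMod.intCast_zmod_eq_zero_iff_dvd _ _).1 h4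
      have h6 : (p : ℤ) * (p : ℤ) ^ (e - 1) ∣ (p : ℤ) * z := by
        rw [← pow_succ', Nat.sub_add_cancel he]
        exact_mod_cast h5
      obtain ⟨x, hx⟩ := (mul_dvd_mul_iff_left (by exact_mod_cast hp.out.ne_zero)).1 h6
      exact ⟨x, by rw [← hz, hx]⟩
    choose x hx using h2
    have h3 : (fun i => (((p : ℤ) ^ (e - 1) * x i : ℤ) : ZMod (p ^ e))) ∈ V := by
      rw [← funext hx]
      exact (hmem _).1 v.2
    obtain ⟨y, hy⟩ := hζ x h3
    rw [hφa]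
    have h4 : ∑ i, ((ζ i : ℤ) : ZMod (p ^ e)) * (v : Fin r → ZMod (p ^ e)) i =
        (((p : ℤ) ^ (e - 1) * ∑ i, ζ i * x i : ℤ) : ZMod (p ^ e)) := by
      rw [Finset.mul_sum, Int.cast_sum]
      refine Finset.sum_congr rfl fun i _ => ?_
      rw [hx i, ← Int.cast_mul]
      congr 1
      ring
    rw [h4, hy, ← mul_assoc, ← pow_succ, Nat.sub_add_cancel he]
    push_cast
    have h5 : ((p : ZMod (p ^ e)) ^ e) = 0 := by
      rw [← Nat.cast_pow]
      exact ZMod.natCast_self _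
    rw [h5, zero_mul]
  obtain ⟨h, hh⟩ := (baer_zmod (n := p ^ e)).extension_property ((LinearMap.ker f).liftQ f le_rfl)
    (LinearMap.ker_eq_bot.1 (Submodule.ker_liftQ_eq_bot _ _ _ le_rfl)) ((LinearMap.ker f).liftQ φ hker)
  have hlin : ∀ x : Fin r → ZMod (p ^ e), h x = ∑ i, h (Pi.single i 1) * x i := by
    intro x
    conv_lhs => rw [← LinearMap.sum_single_apply (φ := fun _ : Fin r => ZMod (p ^ e)) (v := x), map_sum]
    refine Finset.sum_congr rfl fun i _ => ?_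
    have h3 : (Pi.single i (x i) : Fin r → ZMod (p ^ e)) = x i • Pi.single i 1 := by
      rw [← Pi.single_smul, smul_eq_mul, mul_one]
    rw [h3, map_smul, smul_eq_mul, mul_comm]
  refine ⟨fun i => ((ζ i : ℤ) : ZMod (p ^ e)) - p * h (Pi.single i 1), fun v hv => ?_, fun i =>
    ⟨-h (Pi.single i 1), by ring⟩⟩
  have h1 : φ ⟨v, (hmem v).2 hv⟩ = h (f ⟨v, (hmem v).2 hv⟩) := by
    have h2 := LinearMap.congr_fun hh (Submodule.Quotient.mk ⟨v, (hmem v).2 hv⟩)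
    rw [LinearMap.comp_apply, Submodule.liftQ_apply, Submodule.liftQ_apply] at h2
    exact h2.symm
  rw [hφa, hlin] at h1
  have h2 : ∀ i, (f ⟨v, (hmem v).2 hv⟩) i = p * v i := fun i => rfl
  simp only [h2] at h1
  simp only [sub_mul, Finset.sum_sub_distrib]
  rw [sub_eq_zero]
  refine h1.trans (Finset.sum_congr rfl fun i _ => ?_)
  ring

end Pool.Agent.Helper22.DU
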