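import Pool.Agent.Helper22.DU.Inj
import Pool.Agent.HSF.G

/-!
# Row DUAL of Theorem F (all primes), part 2: dual families over a ring with residue field `F`
-/

set_option autoImplicit false

open Module

namespace Pool.Agent.Helper22.DU

variable {p e r : ℕ} [hp : Fact p.Prime] {k : Type*} [CommRing k] [Algebra (ZMod (p ^ e)) k]
  {F : Type*} [Field F] [Algebra (ZMod p) F]

/-- lifting one vector with entries in the residue field -/
theorem lift_vec [FiniteDimensional (ZMod p) F] (he : 1 ≤ e) (π : k →+* F) (hπ : Function.Surjective π)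
    (V : AddSubgroup (Fin r → ZMod (p ^ e))) (ξ : Fin r → F)
    (hξ : ∀ x : Fin r → ℤ, (fun i => (((p : ℤ) ^ (e - 1) * x i : ℤ) : ZMod (p ^ e))) ∈ V →
      ∑ i, ξ i * ((x i : ℤ) : F) = 0) :
    ∃ ξ' : Fin r → k, (∀ i, π (ξ' i) = ξ i) ∧
      ∀ v ∈ V, ∑ i, ξ' i * algebraMap (ZMod (p ^ e)) k (v i) = 0 := by
  classical
  set b := Module.finBasis (ZMod p) F with hb
  have hF : ((p : ℕ) : F) = 0 := by
    rw [← map_natCast (algebraMap (ZMod p) F), ZMod.natCast_self, map_zero]
  set ζ : Fin (finrank (ZMod p) F) → Fin r → ℤ := fun t i => ((b.repr (ξ i) t).val : ℤ) with hζ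
  have hζc : ∀ t i, ((ζ t i : ℤ) : ZMod p) = b.repr (ξ i) t := by
    intro t i
    rw [hζ]
    push_cast
    exact ZMod.natCast_zmod_val _
  have h1 : ∀ t, ∃ ζ' : Fin r → ZMod (p ^ e), (∀ v ∈ V, ∑ i, ζ' i * v i = 0) ∧
      ∀ i, ∃ u : ZMod (p ^ e), ζ' i = ((ζ t i : ℤ) : ZMod (p ^ e)) + p * u := by
    intro t
    refine lift_perp he V (ζ t) fun x hx => ?_
    rw [← ZMod.intCast_zmod_eq_zero_iff_dvd, Int.cast_sum]
    have h2 := congrArg (fun y => b.repr y t) (hξ x hx)
    simp only [map_sum, map_zero, Finsupp.coe_finset_sum, Finset.sum_apply, Finsupp.coe_zero, Pi.zero_apply] at h2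
    refine (Finset.sum_congr rfl fun i _ => ?_).trans h2
    have h3 : ξ i * ((x i : ℤ) : F) = ((x i : ℤ) : ZMod p) • ξ i := by
      rw [Algebra.smul_def, map_intCast, mul_comm]
    rw [h3, map_smul, Finsupp.smul_apply, smul_eq_mul, Int.cast_mul, hζc, mul_comm]
  choose ζ' h2 h3 using h1
  choose u hu using h3
  choose b' hb' using fun t => hπ (b t)
  refine ⟨fun i => ∑ t, algebraMap (ZMod (p ^ e)) k (ζ' t i) * b' t, fun i => ?_, fun v hv => ?_⟩
  · rw [map_sum]
    have h4 : ∀ t, π (algebraMap (ZMod (p ^ e)) k (ζ' t i) * b' t) = b.repr (ξ i) t • b t := by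
      intro t
      rw [hu t i, map_mul, map_add, map_add, map_mul, map_mul, map_natCast, map_natCast, hF, zero_mul, add_zero,
        map_intCast, map_intCast, hb', Algebra.smul_def, ← hζc, map_intCast]
    rw [Finset.sum_congr rfl fun t _ => h4 t]
    exact b.sum_repr (ξ i)
  · simp only [Finset.sum_mul]
    rw [Finset.sum_comm]
    refine Finset.sum_eq_zero fun t _ => ?_
    have h4 : ∑ i, algebraMap (ZMod (p ^ e)) k (ζ' t i) * b' t * algebraMap (ZMod (p ^ e)) k (v i) =
        algebraMap (ZMod (p ^ e)) k (∑ i, ζ' t i * v i) * b' t := by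
      rw [map_sum, Finset.sum_mul]
      refine Finset.sum_congr rfl fun i _ => ?_
      rw [map_mul]
      ring
    rw [h4, h2 t v hv, map_zero, zero_mul]

/-- a square matrix whose reduction is the identity is invertible, if the kernel of the reduction is nil -/
theorem exists_inverse (π : k →+* F) (hker : ∀ x, π x = 0 → IsNilpotent x) {m : ℕ} (A : Matrix (Fin m) (Fin m) k)
    (hA : ∀ i j, π (A i j) = if i = j then 1 else 0) : ∃ B : Matrix (Fin m) (Fin m) k, B * A = 1 := by
  have h1 : π A.det = 1 := by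
    rw [RingHom.map_det]
    have h2 : π.mapMatrix A = 1 := by
      ext i j
      rw [RingHom.mapMatrix_apply, Matrix.map_apply, hA, Matrix.one_apply]
    rw [h2, Matrix.det_one]
  have h2 : IsUnit A.det := by
    have h3 : IsNilpotent (A.det - 1) := hker _ (by rw [map_sub, h1, map_one, sub_self])
    have h4 := h3.isUnit_add_one
    rwa [sub_add_cancel] at h4
  exact ⟨A⁻¹, Matrix.nonsing_inv_mul _ h2⟩

/-- **The dual family.** -/
theorem dual_lift [FiniteDimensional (ZMod p) F] {D : ℕ} (he : 1 ≤ e) (π : k →+* F)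
    (hπ : Function.Surjective π) (hker : ∀ x, π x = 0 → IsNilpotent x) {α : Fin r → F}
    (hα : LinearIndependent (ZMod p) α) (w : Fin (D + 1) → Fin r → k)
    (hw : ∀ j i, π (w j i) = α i ^ p ^ (j : ℕ)) (V : AddSubgroup (Fin r → ZMod (p ^ e)))
    (S : Submodule (ZMod p) (Fin r → ZMod p))
    (hS : ∀ x : Fin r → ℤ, (fun i => (((p : ℤ) ^ (e - 1) * x i : ℤ) : ZMod (p ^ e))) ∈ V →
      (fun i => ((x i : ℤ) : ZMod p)) ∈ S) (hfin : finrank (ZMod p) S + (D + 1) ≤ r) :
    ∃ Ξ : Fin (D + 1) → Fin r → k,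
      (∀ c, ∀ v ∈ V, ∑ i, Ξ c i * algebraMap (ZMod (p ^ e)) k (v i) = 0) ∧
      ∀ c j, ∑ i, Ξ c i * w j i = if c = j then 1 else 0 := by
  classical
  obtain ⟨ξ, h1, h2⟩ := Pool.Agent.HSF.gabidulin hα S hfin
  have h3 : ∀ c, ∃ ξ' : Fin r → k, (∀ i, π (ξ' i) = ξ c i) ∧
      ∀ v ∈ V, ∑ i, ξ' i * algebraMap (ZMod (p ^ e)) k (v i) = 0 := by
    intro c
    refine lift_vec he π hπ V (ξ c) fun x hx => ?_
    have h4 := h1 c _ (hS x hx)
    simpa [map_intCast] using h4
  choose ξ' h4 h5 using h3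
  obtain ⟨B, hB⟩ := exists_inverse π hker (Matrix.of fun c j => ∑ i, ξ' c i * w j i) (by
    intro c j
    rw [Matrix.of_apply, map_sum]
    simp only [map_mul, h4, hw]
    exact h2 c j)
  refine ⟨fun c i => ∑ c', B c c' * ξ' c' i, fun c v hv => ?_, fun c j => ?_⟩
  · simp only [Finset.sum_mul]
    rw [Finset.sum_comm]
    refine Finset.sum_eq_zero fun c' _ => ?_
    simp only [mul_assoc]
    rw [← Finset.mul_sum, h5 c' v hv, mul_zero]
  · have h6 := congrFun (congrFun hB c) j
    rw [Matrix.mul_apply, Matrix.one_apply] at h6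
    rw [← h6]
    simp only [Finset.sum_mul, Matrix.of_apply, Finset.mul_sum, mul_assoc]
    rw [Finset.sum_comm]

end Pool.Agent.Helper22.DU
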